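import Pool.Agent.Helper51.PP.GoalsA2

/-!
# Project PP (MP_fc6b1e_nt), packet PP-A2-EXP: exponential sum over all ideals
-/

namespace Pool.Agent.Helper32.PP

open NumberField Pool.Agent.Helper51.PP

theorem geo {r : ℝ} (h0 : 0 ≤ r) (h1 : r < 1) (N : ℕ) :
    HasSum (fun k : ℕ => if N ≤ k then r ^ k else 0) (r ^ N / (1 - r)) := by
  have hinj : Function.Injective (fun k : ℕ => k + N) := add_left_injective N
  have hsupp : ∀ x ∉ Set.range (fun k : ℕ => k + N), (if N ≤ x then r ^ x else 0) = 0 := by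
    intro x hx
    rw [if_neg]
    intro h
    exact hx ⟨x - N, Nat.sub_add_cancel h⟩
  rw [← hinj.hasSum_iff hsupp]
  have h2 := (hasSum_geometric_of_lt_one h0 h1).mul_left (r ^ N)
  rw [← div_eq_mul_inv] at h2
  have h3 : ((fun k : ℕ => if N ≤ k then r ^ k else 0) ∘ fun k : ℕ => k + N) =
      fun k : ℕ => r ^ N * r ^ k := by
    funext k
    simp only [Function.comp]
    rw [if_pos (Nat.le_add_left N k), pow_add, mul_comm]
  rw [h3]
  exact h2

theorem sum_le {F : Type} [Field F] [NumberField F] {C : ℝ} (hC : 0 < C)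
    (h : ∀ x : ℝ, 0 ≤ x → {I : Ideal (𝓞 F) | I ≠ ⊥ ∧ (Ideal.absNorm I : ℝ) ≤ x}.Finite ∧
      ({I : Ideal (𝓞 F) | I ≠ ⊥ ∧ (Ideal.absNorm I : ℝ) ≤ x}.ncard : ℝ) ≤ C * x)
    {Z : ℝ} (hZ : 0 < Z) (T : Finset (Ideal (𝓞 F))) (hT : ∀ I ∈ T, I ≠ ⊥) :
    ∑ I ∈ T, Real.exp (-(Ideal.absNorm I : ℝ) / Z) ≤ C * Z := by
  classical
  set r : ℝ := Real.exp (-(1 / Z)) with hr
  have hr0 : 0 < r := Real.exp_pos _
  have hr1 : r < 1 := by
    have h0 : 0 < 1 / Z := by positivity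
    have h00 : Real.exp (-(1 / Z)) < Real.exp 0 := Real.exp_lt_exp.2 (by linarith)
    rwa [Real.exp_zero] at h00
  have hr2 : 0 < 1 - r := by linarith
  have hexp : ∀ n : ℕ, Real.exp (-(n : ℝ) / Z) = r ^ n := by
    intro n
    rw [hr, ← Real.exp_nat_mul]
    congr 1
    ring
  have h1 : HasSum (fun k : ℕ => ∑ I ∈ T, (if Ideal.absNorm I ≤ k then r ^ k else 0))
      (∑ I ∈ T, r ^ (Ideal.absNorm I) / (1 - r)) :=
    hasSum_sum fun I _ => geo hr0.le hr1 (Ideal.absNorm I)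
  have h2 : HasSum (fun k : ℕ => C * ((k : ℝ) * r ^ k)) (C * (r / (1 - r) ^ 2)) := by
    apply HasSum.mul_left
    apply hasSum_coe_mul_geometric_of_norm_lt_one
    rw [Real.norm_eq_abs, abs_of_pos hr0]
    exact hr1
  have h3 : ∑ I ∈ T, r ^ (Ideal.absNorm I) / (1 - r) ≤ C * (r / (1 - r) ^ 2) := by
    refine hasSum_le ?_ h1 h2
    intro k
    rw [← Finset.sum_filter, Finset.sum_const, nsmul_eq_mul, ← mul_assoc]
    have h4 : ((T.filter fun I => Ideal.absNorm I ≤ k).card : ℝ) ≤ C * k := by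
      obtain ⟨hf, hc⟩ := h k (Nat.cast_nonneg k)
      refine le_trans ?_ hc
      rw [← Set.ncard_coe_finset]
      refine Nat.cast_le.2 (Set.ncard_le_ncard ?_ hf)
      intro I hI
      rw [Finset.mem_coe, Finset.mem_filter] at hI
      exact ⟨hT I hI.1, by exact_mod_cast hI.2⟩
    gcongr
  rw [← Finset.sum_div, div_le_iff₀ hr2] at h3
  have h5 : ∑ I ∈ T, Real.exp (-(Ideal.absNorm I : ℝ) / Z) = ∑ I ∈ T, r ^ (Ideal.absNorm I) :=
    Finset.sum_congr rfl fun I _ => hexp _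
  rw [h5]
  refine h3.trans ?_
  have h6 : r / (1 - r) ≤ Z := by
    rw [div_le_iff₀ hr2]
    have h7 : 1 / Z + 1 ≤ Real.exp (1 / Z) := Real.add_one_le_exp _
    have h8 : r * Real.exp (1 / Z) = 1 := by rw [hr, ← Real.exp_add]; simp
    have h9 : r * (1 / Z + 1) ≤ 1 :=
      (mul_le_mul_of_nonneg_left h7 hr0.le).trans_eq h8
    have h10 : r * (1 / Z + 1) * Z = r + r * Z := by field_simp
    nlinarith
  have h11 : C * (r / (1 - r) ^ 2) * (1 - r) = C * (r / (1 - r)) := by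
    field_simp
  rw [h11]
  gcongr

theorem a2_exp (h : A2_CNT) : Pool.Agent.Helper51.PP.A2_EXP := by
  classical
  intro F _ _
  obtain ⟨C, hC, hcnt⟩ := h F
  refine ⟨?_, C, hC, ?_⟩
  · intro Z hZ
    refine summable_of_sum_le (c := 1 + C * Z) (fun I => (Real.exp_pos _).le) ?_
    intro T
    have h1 : ∑ I ∈ T, Real.exp (-(Ideal.absNorm I : ℝ) / Z) ≤
        ∑ I ∈ insert ⊥ (T.erase ⊥), Real.exp (-(Ideal.absNorm I : ℝ) / Z) := by
      refine Finset.sum_le_sum_of_subset_of_nonneg ?_ fun _ _ _ => (Real.exp_pos _).le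
      exact fun I hI => by
        by_cases h0 : I = ⊥
        · rw [h0]; exact Finset.mem_insert_self _ _
        · exact Finset.mem_insert_of_mem (Finset.mem_erase.2 ⟨h0, hI⟩)
    refine h1.trans ?_
    rw [Finset.sum_insert (Finset.notMem_erase _ _)]
    have h2 := sum_le hC hcnt hZ (T.erase ⊥) fun I hI => (Finset.mem_erase.1 hI).1
    have h3 : Real.exp (-(Ideal.absNorm (⊥ : Ideal (𝓞 F)) : ℝ) / Z) = 1 := by
      rw [Ideal.absNorm_bot]
      simp
    rw [h3]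
    linarith
  · intro Z hZ
    refine Real.tsum_le_of_sum_le (fun I => (Real.exp_pos _).le) ?_
    intro T
    have h1 := sum_le hC hcnt hZ (T.image Subtype.val) fun I hI => by
      obtain ⟨J, _, rfl⟩ := Finset.mem_image.1 hI
      exact J.2
    rw [Finset.sum_image fun _ _ _ _ h => Subtype.ext h] at h1
    exact h1

end Pool.Agent.Helper32.PP
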