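import Pool.Agent.Helper76.PP.Goals3
import Pool.Agent.Helper40.RD.TRF

/-!
# Project PP (MP_fc6b1e_nt), part B: norms of units and of elements with given divisor
-/

namespace Pool.Agent.Helper32.PP

open NumberField Module IsDedekindDomain
open Pool.Agent.Helper51.RP Pool.Agent.Helper42.RD Pool.Agent.Helper42.PP
open Pool.Agent.Helper40.RS (bel lies gw val_smul bel_smul)
open Pool.Agent.Helper40.RD (valW ordW bel_of_above)
open scoped Pointwise

section tools

variable {K F : Type} [Field K] [NumberField K] [Field F] [NumberField F] [Algebra K F]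

theorem mem_up (S : Finset (HeightOneSpectrum (𝓞 K))) (W : HeightOneSpectrum (𝓞 F)) :
    W ∈ up F S ↔ bel K W ∈ S := by
  constructor
  · rintro ⟨v, hv, h⟩
    rw [bel_of_above h]
    exact hv
  · intro h
    exact ⟨bel K W, h, rfl⟩

theorem ordv_prod (W : HeightOneSpectrum (𝓞 F)) {ι : Type} (s : Finset ι) (f : ι → F)
    (hf : ∀ i ∈ s, f i ≠ 0) : ordv W (∏ i ∈ s, f i) = ∑ i ∈ s, ordv W (f i) := by
  classical
  induction s using Finset.induction_on with
  | empty =>
    unfold ordv
    rw [Finset.prod_empty, Finset.sum_empty, map_one, WithZero.log_one, neg_zero]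
  | insert a s ha ih =>
    rw [Finset.prod_insert ha, Finset.sum_insert ha,
      ← ih fun i hi => hf i (Finset.mem_insert_of_mem hi)]
    have h1 : W.valuation F (f a) ≠ 0 :=
      (Valuation.ne_zero_iff _).2 (hf a (Finset.mem_insert_self _ _))
    have h2 : W.valuation F (∏ i ∈ s, f i) ≠ 0 :=
      (Valuation.ne_zero_iff _).2 (Finset.prod_ne_zero_iff.2 fun i hi =>
        hf i (Finset.mem_insert_of_mem hi))
    unfold ordv
    rw [map_mul, WithZero.log_mul h1 h2]
    ring

theorem modu_mem (p : ℕ) (S : Finset (HeightOneSpectrum (𝓞 K))) (α : 𝓞 F)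
    (hα : α - 1 ∈ modu p F S) : α - 1 ∈ Ideal.span {(p : 𝓞 F) ^ 3} ∧
      ∀ v ∈ S, α - 1 ∈ v.asIdeal.map (algebraMap (𝓞 K) (𝓞 F)) := by
  unfold modu at hα
  have h1 : Ideal.span {(p : 𝓞 F) ^ 3} * ∏ v ∈ S, v.asIdeal.map (algebraMap (𝓞 K) (𝓞 F)) ≤
      Ideal.span {(p : 𝓞 F) ^ 3} := Ideal.mul_le_left
  have h2 : Ideal.span {(p : 𝓞 F) ^ 3} * ∏ v ∈ S, v.asIdeal.map (algebraMap (𝓞 K) (𝓞 F)) ≤
      ∏ v ∈ S, v.asIdeal.map (algebraMap (𝓞 K) (𝓞 F)) := Ideal.mul_le_right
  refine ⟨h1 hα, fun v hv => ?_⟩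
  have h3 : ∏ v ∈ S, v.asIdeal.map (algebraMap (𝓞 K) (𝓞 F)) ≤
      v.asIdeal.map (algebraMap (𝓞 K) (𝓞 F)) := Ideal.le_of_dvd (Finset.dvd_prod_of_mem _ hv)
  exact h3 (h2 hα)

/-- Products of elements congruent to `1`. -/
theorem prod_lt (W : HeightOneSpectrum (𝓞 F)) {ι : Type} (s : Finset ι) (f : ι → F)
    (hf : ∀ i ∈ s, W.valuation F (f i - 1) < 1) : W.valuation F (∏ i ∈ s, f i - 1) < 1 := by
  classical
  induction s using Finset.induction_on with
  | empty =>
    rw [Finset.prod_empty, sub_self, map_zero]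
    exact zero_lt_one
  | insert a s ha ih =>
    rw [Finset.prod_insert ha]
    have h1 := hf a (Finset.mem_insert_self _ _)
    have h2 := ih fun i hi => hf i (Finset.mem_insert_of_mem hi)
    have h3 : W.valuation F (∏ i ∈ s, f i) ≤ 1 := by
      have e : ∏ i ∈ s, f i = (∏ i ∈ s, f i - 1) + 1 := by ring
      rw [e]
      exact Valuation.map_add_le _ h2.le (by rw [map_one])
    have e : f a * ∏ i ∈ s, f i - 1 = (f a - 1) * ∏ i ∈ s, f i + (∏ i ∈ s, f i - 1) := by ring
    rw [e]
    refine Valuation.map_add_lt _ ?_ h2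
    rw [map_mul]
    exact mul_lt_one_of_lt_of_le h1 h3

theorem prod_le' (W : HeightOneSpectrum (𝓞 F)) {ι : Type} (s : Finset ι) (f : ι → F)
    (γ : WithZero (Multiplicative ℤ)) (hγ : γ ≤ 1)
    (hf : ∀ i ∈ s, W.valuation F (f i - 1) ≤ γ) : W.valuation F (∏ i ∈ s, f i - 1) ≤ γ := by
  classical
  induction s using Finset.induction_on with
  | empty =>
    rw [Finset.prod_empty, sub_self, map_zero]
    exact zero_le
  | insert a s ha ih =>
    rw [Finset.prod_insert ha]
    have h1 := hf a (Finset.mem_insert_self _ _)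
    have h2 := ih fun i hi => hf i (Finset.mem_insert_of_mem hi)
    have h3 : W.valuation F (∏ i ∈ s, f i) ≤ 1 := by
      have e : ∏ i ∈ s, f i = (∏ i ∈ s, f i - 1) + 1 := by ring
      rw [e]
      exact Valuation.map_add_le _ (h2.trans hγ) (by rw [map_one])
    have e : f a * ∏ i ∈ s, f i - 1 = (f a - 1) * ∏ i ∈ s, f i + (∏ i ∈ s, f i - 1) := by ring
    rw [e]
    refine Valuation.map_add_le _ ?_ h2
    rw [map_mul]
    calc W.valuation F (f a - 1) * W.valuation F (∏ i ∈ s, f i) ≤ γ * 1 := mul_le_mul' h1 h3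
      _ = γ := mul_one γ

end tools

section tower

variable {K E F : Type} [Field K] [NumberField K] [Field E] [NumberField E] [Field F]
  [NumberField F] [Algebra K E] [Algebra K F] [Algebra E F] [IsScalarTower K E F]

omit [NumberField K] [NumberField E] [NumberField F] in
variable (K E F) in
theorem tow : algebraMap (𝓞 K) (𝓞 F) =
    (algebraMap (𝓞 E) (𝓞 F)).comp (algebraMap (𝓞 K) (𝓞 E)) := by
  apply RingHom.ext
  intro x
  apply RingOfIntegers.ext
  exact IsScalarTower.algebraMap_apply K E F (x : K)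

variable (K) in
theorem bel_bel (W : HeightOneSpectrum (𝓞 F)) : bel K (bel E W) = bel K W := by
  apply HeightOneSpectrum.ext
  show (W.asIdeal.comap (algebraMap (𝓞 E) (𝓞 F))).comap (algebraMap (𝓞 K) (𝓞 E)) =
    W.asIdeal.comap (algebraMap (𝓞 K) (𝓞 F))
  rw [Ideal.comap_comap, tow K E F]

theorem e_ne (W : HeightOneSpectrum (𝓞 F)) :
    (bel E W).asIdeal.ramificationIdx' W.asIdeal ≠ 0 :=
  Ideal.IsDedekindDomain.ramificationIdx'_ne_zero_of_liesOver W.asIdeal (bel E W).ne_bot

variable [IsGalois E F]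

theorem val_gal (h : F ≃ₐ[E] F) (W : HeightOneSpectrum (𝓞 F)) (x : F) :
    W.valuation F (h x) = (gw h⁻¹ W).valuation F x :=
  val_smul h (gw h⁻¹ W) W (by show h • (h⁻¹ • W.asIdeal) = _; rw [smul_inv_smul]) x

theorem bel_gw (h : F ≃ₐ[E] F) (W : HeightOneSpectrum (𝓞 F)) : bel E (gw h W) = bel E W :=
  bel_smul h W (gw h W) rfl

theorem norm_coe (x : Fˣ) : algebraMap E F ((nrm E F x : Eˣ) : E) =
    ∏ h : F ≃ₐ[E] F, h (x : F) :=
  Algebra.norm_eq_prod_automorphisms E (x : F)

end tower

theorem b_nor (h1 : Pool.Agent.Helper42.PP.P_UPR) : Pool.Agent.Helper76.PP.B_NOR := by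
  intro p hp K E F _ _ _ _ _ _ _ _ _ _ _ _ S
  have hEF : IsGalois E F := IsGalois.tower_top_of_isGalois K E F
  have hex : ∀ w : HeightOneSpectrum (𝓞 E), ∃ W : HeightOneSpectrum (𝓞 F), bel E W = w := by
    intro w
    obtain ⟨-, -, -, -, -, h, -⟩ := h1 p E F ∅
    obtain ⟨W, hW⟩ := h w
    exact ⟨W, bel_of_above hW⟩
  have hbK : ∀ (h : F ≃ₐ[E] F) (W : HeightOneSpectrum (𝓞 F)), bel K (gw h W) = bel K W := by
    intro h W
    rw [← bel_bel K (E := E), bel_gw, bel_bel K (E := E)]
  have hup : ∀ W : HeightOneSpectrum (𝓞 F), W ∈ up F S ↔ bel E W ∈ up E S := by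
    intro W
    rw [mem_up, mem_up, bel_bel]
  have hupg : ∀ (h : F ≃ₐ[E] F) (W : HeightOneSpectrum (𝓞 F)), W ∉ up F S →
      gw h W ∉ up F S := by
    intro h W hW
    rw [mem_up, hbK, ← mem_up]
    exact hW
  refine ⟨?_, ?_, ?_, ?_⟩
  · -- units
    intro x hx w hw
    obtain ⟨W, rfl⟩ := hex w
    have hW : W ∉ up F S := fun h => hw ((hup W).1 h)
    have h2 : W.valuation F (algebraMap E F ((nrm E F x : Eˣ) : E)) = 1 := by
      rw [norm_coe, map_prod]
      refine Finset.prod_eq_one fun h _ => ?_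
      rw [val_gal]
      exact hx _ (hupg _ _ hW)
    rw [valW] at h2
    exact (pow_eq_one_iff.1 h2).resolve_right (e_ne W)
  · -- equivariance
    intro g σ hg x
    have h2 : ∀ z : F, Algebra.norm E (g z) = σ (Algebra.norm E z) := by
      intro z
      have h3 := Algebra.norm_eq_of_equiv_equiv (σ : E ≃+* E) (g : F ≃+* F)
        (by ext y; exact (hg y).symm) z
      rw [h3]
      exact (RingEquiv.apply_symm_apply (σ : E ≃+* E) _).symm
    refine ⟨Units.ext (h2 x), Units.ext ?_⟩
    rw [Units.coe_prod]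
    show algebraMap E F (σ ((nrm E F x : Eˣ) : E)) =
      ∏ h : F ≃ₐ[E] F, g (h (x : F))
    rw [← hg, norm_coe, map_prod]
  · -- congruences
    intro x α hxα
    have key : ∀ (v : HeightOneSpectrum (𝓞 K)),
        α - 1 ∈ v.asIdeal.map (algebraMap (𝓞 K) (𝓞 F)) →
        ∀ w : HeightOneSpectrum (𝓞 E), Above w v →
          w.valuation E ((nrm E F x : Eˣ) - 1 : E) < 1 := by
      intro v hv w hw
      obtain ⟨W, rfl⟩ := hex w
      have hv' : bel K W = v := by rw [← bel_bel K (E := E), bel_of_above hw]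
      have h2 : W.valuation F (algebraMap E F ((nrm E F x : Eˣ) - 1 : E)) < 1 := by
        rw [map_sub, map_one, norm_coe]
        refine prod_lt W _ _ fun h _ => ?_
        have e1 : h (x : F) - 1 = h ((x : F) - 1) := by rw [map_sub, map_one]
        rw [e1, val_gal]
        have e2 : (x : F) - 1 = algebraMap (𝓞 F) F (α - 1) := by
          rw [hxα, map_sub, map_one]
        rw [e2]
        refine (HeightOneSpectrum.valuation_lt_one_iff_mem (K := F) _ _).2 ?_
        have e3 : bel K (gw h⁻¹ W) = v := (hbK _ _).trans hv'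
        have e4 : v.asIdeal.map (algebraMap (𝓞 K) (𝓞 F)) ≤ (gw h⁻¹ W).asIdeal := by
          rw [Ideal.map_le_iff_le_comap, ← e3]
          exact le_rfl
        exact e4 hv
      rw [valW] at h2
      exact (pow_lt_one_iff (e_ne W)).1 h2
    refine ⟨fun hα => ⟨1, fun w hw => ?_⟩, key⟩
    rw [Units.val_one, one_pow, mul_one]
    obtain ⟨v, hv, hwv⟩ := hw
    obtain ⟨hα1, hα2'⟩ := modu_mem p S α hα
    have hα2 := hα2' v hv
    refine ⟨key v hα2 w hwv, ?_⟩
    obtain ⟨β, hβ⟩ := Ideal.mem_span_singleton'.1 hα1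
    obtain ⟨W, rfl⟩ := hex w
    have hp1 : W.valuation F (p : F) ≤ 1 := by
      have := W.valuation_le_one (K := F) (p : 𝓞 F)
      simpa using this
    have h2 : W.valuation F (algebraMap E F ((nrm E F x : Eˣ) - 1 : E)) ≤
        W.valuation F (p : F) ^ 3 := by
      rw [map_sub, map_one, norm_coe]
      refine prod_le' W _ _ _ (pow_le_one₀ zero_le hp1) fun h _ => ?_
      have e1 : h (x : F) - 1 = (p : F) ^ 3 * algebraMap (𝓞 F) F (h • β) := by
        have e2 : (x : F) - 1 = (β : F) * (p : F) ^ 3 := by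
          rw [hxα]
          have := congrArg (algebraMap (𝓞 F) F) hβ
          rw [map_sub, map_one, map_mul, map_pow, map_natCast] at this
          exact this.symm
        have e3 : h (x : F) - 1 = h ((x : F) - 1) := by rw [map_sub, map_one]
        rw [e3, e2, map_mul, map_pow, map_natCast, mul_comm]
        rfl
      rw [e1, map_mul, map_pow]
      calc W.valuation F (p : F) ^ 3 * W.valuation F (algebraMap (𝓞 F) F (h • β))
          ≤ W.valuation F (p : F) ^ 3 * 1 := mul_le_mul' le_rfl (W.valuation_le_one _)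
        _ = _ := mul_one _
    have h3 : (p : F) = algebraMap E F (p : E) := by rw [map_natCast]
    rw [h3, valW, valW, ← pow_mul, mul_comm _ 3, pow_mul] at h2
    exact (pow_le_pow_iff_left₀ zero_le zero_le (e_ne W)).1 h2
  · -- divisors
    intro v W w hv hWv hWw hfree x hx
    have hw : bel E W = w := bel_of_above hWw
    have hWS : W ∉ up F S := by
      rw [mem_up, bel_of_above hWv]
      exact hv
    have hsum : ∀ W' : HeightOneSpectrum (𝓞 F), W' ∉ up F S →
        ((bel E W').asIdeal.ramificationIdx' W'.asIdeal : ℤ) *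
          ordv (bel E W') ((nrm E F x : Eˣ) : E) =
          ∑ h : F ≃ₐ[E] F, ordv (gw h⁻¹ W') (x : F) := by
      intro W' hW'
      rw [← ordW, norm_coe, ordv_prod _ _ _ fun h _ => by simp]
      refine Finset.sum_congr rfl fun h _ => ?_
      unfold ordv
      rw [val_gal]
    intro w' hw'
    refine ⟨?_, ?_⟩
    · rintro rfl
      subst hw
      have h2 := hsum W hWS
      rw [Finset.sum_eq_single 1] at h2
      · have h3 : gw (1 : F ≃ₐ[E] F)⁻¹ W = W := by
          apply HeightOneSpectrum.ext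
          show (1 : F ≃ₐ[E] F)⁻¹ • W.asIdeal = W.asIdeal
          rw [inv_one, one_smul]
        rw [h3, (hx W hWS).1 rfl] at h2
        rcases Int.eq_one_or_neg_one_of_mul_eq_one h2 with h4 | h4
        · rw [h4, one_mul] at h2
          exact h2
        · exfalso
          have := Int.natCast_nonneg ((bel E W).asIdeal.ramificationIdx' W.asIdeal)
          omega
      · intro h _ hne
        have h0 : gw h⁻¹ W ∉ up F S := hupg h⁻¹ W hWS
        refine (hx (gw h⁻¹ W) h0).2 fun h3 => hne ?_
        have h4 : ∀ y : F, W.valuation F (h.restrictScalars K y) = W.valuation F y := by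
          intro y
          show W.valuation F (h y) = _
          rw [val_gal, h3]
        have h5 := hfree _ h4
        apply AlgEquiv.ext
        intro y
        exact DFunLike.congr_fun h5 y
      · intro h
        exact absurd (Finset.mem_univ _) h
    · intro hne
      obtain ⟨W', rfl⟩ := hex w'
      have hW' : W' ∉ up F S := fun h => hw' ((hup W').1 h)
      have h2 := hsum W' hW'
      rw [Finset.sum_eq_zero] at h2
      · rcases mul_eq_zero.1 h2 with h3 | h3
        · exfalso
          exact e_ne W' (Int.natCast_eq_zero.1 h3)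
        · exact h3
      · intro h _
        have h0 : gw h⁻¹ W' ∉ up F S := hupg h⁻¹ W' hW'
        refine (hx (gw h⁻¹ W') h0).2 fun h3 => hne ?_
        have h4 : bel E (gw h⁻¹ W') = bel E W' := bel_gw h⁻¹ W'
        rw [← h4, h3]
        exact hw

end Pool.Agent.Helper32.PP
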