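import Pool.Agent.Helper94.PP.GoalsA1
import Pool.Agent.Helper79.RS.KEY
import Pool.Agent.Helper51.RS.GFB
import Pool.Agent.Helper24.RS.LSM
import Pool.Agent.Helper69.RS.UNI

/-!
# Project PP (MP_fc6b1e_nt), part A1: the key estimate, uniform
-/

namespace Pool.Agent.Helper32.PP

open NumberField Module IsDedekindDomain
open Pool.Agent.Helper38.RS (hf Gf absN)
open Pool.Agent.Helper94.PP (Wt gw A1_KEY)
open Pool.Agent.Helper79.RS (place_le place_add house_le_of absN_eq finrank_eq absN_le_house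
  absN_mul_le absN_ratio house_ratio absN_nonneg one_le_absN house_pos hf_nonneg hf_ratio
  pow_bound Gf_ratio)

section more

variable {F : Type} [Field F] [NumberField F] [IsTotallyComplex F]

theorem q_ratio (hS : ∀ α : F, α ≠ 0 → Summable fun ε : (𝓞 F)ˣ ↦ hf ((ε : F) * α))
    (hG : ∀ α : F, α ≠ 0 → 0 < Gf α) {x y : F} (hx : x ≠ 0) (hy : y ≠ 0) {ρ : ℝ} (hρ : 1 ≤ ρ)
    (h1 : ∀ w : InfinitePlace F, w y ≤ ρ * w x) (h2 : ∀ w : InfinitePlace F, w x ≤ ρ * w y) :
    hf y / Gf y ≤ ρ ^ (12 * finrank ℚ F) * (hf x / Gf x) := by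
  have hρ0 : 0 ≤ ρ := by linarith
  have e1 := hf_ratio hx hy hρ0 h1 h2
  have e2 := Gf_ratio hS hy hx hρ0 h2 h1
  have hGx := hG x hx
  have hGy := hG y hy
  rw [← mul_div_assoc, div_le_div_iff₀ hGy hGx]
  have hfx := hf_nonneg x
  have hfy := hf_nonneg y
  calc hf y * Gf x ≤ (ρ ^ (6 * finrank ℚ F) * hf x) * (ρ ^ (6 * finrank ℚ F) * Gf y) := by
        apply mul_le_mul e1 e2 hGx.le
        positivity
    _ = ρ ^ (12 * finrank ℚ F) * hf x * Gf y := by
        have : ρ ^ (12 * finrank ℚ F) = ρ ^ (6 * finrank ℚ F) * ρ ^ (6 * finrank ℚ F) := by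
          rw [← pow_add]; congr 1; ring
        rw [this]; ring

/-- (B) -/
theorem q_bound {c : ℝ} (hc : 0 < c) (hcG : ∀ α : F, α ≠ 0 → c ≤ Gf α) {a : ℝ} (ha0 : 0 ≤ a)
    (ha1 : a ≤ 1) {x : F} (hx : x ≠ 0) (hNx : 1 ≤ absN x) (w₀ : InfinitePlace F) :
    hf x / Gf x * absN x ^ (-a) ≤
      c⁻¹ * (w₀ x) ^ 2 * house x ^ (-((finrank ℚ F : ℝ) * a + 2)) := by
  have hH := house_pos hx
  have hG := hcG x hx
  have hfx := hf_nonneg x
  have hN0 : 0 < absN x := by linarith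
  have e2 : hf x / Gf x ≤ c⁻¹ * hf x := by
    rw [div_eq_inv_mul]
    apply mul_le_mul_of_nonneg_right _ hfx
    exact inv_anti₀ hc hG
  have e3 := absN_mul_le x w₀
  have e4 := absN_le_house x
  have e5 : absN x ^ 2 * house x ^ (finrank ℚ F + 2) ≤
      (w₀ x) ^ 2 * house x ^ (3 * finrank ℚ F) := by
    calc absN x ^ 2 * house x ^ (finrank ℚ F + 2)
        = absN x * (absN x * house x ^ 2) * house x ^ finrank ℚ F := by rw [pow_add]; ring
      _ ≤ house x ^ finrank ℚ F * ((w₀ x) ^ 2 * house x ^ finrank ℚ F) *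
            house x ^ finrank ℚ F := by
          gcongr
      _ = (w₀ x) ^ 2 * house x ^ (3 * finrank ℚ F) := by
          have : house x ^ (3 * finrank ℚ F) =
              house x ^ finrank ℚ F * house x ^ finrank ℚ F * house x ^ finrank ℚ F := by
            rw [← pow_add, ← pow_add]; congr 1; ring
          rw [this]; ring
  -- `N ^ (1 - a) ≤ H ^ (n (1 - a))`
  have e6 : absN x ^ (1 - a) ≤ house x ^ ((finrank ℚ F : ℝ) * (1 - a)) := by
    rw [Real.rpow_mul hH.le, Real.rpow_natCast]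
    exact Real.rpow_le_rpow hN0.le e4 (by linarith)
  have e7 : absN x ^ (-a) = (absN x)⁻¹ * absN x ^ (1 - a) := by
    rw [← Real.rpow_neg_one, ← Real.rpow_add hN0]
    congr 1
    ring
  have e8 : house x ^ (-((finrank ℚ F : ℝ) * a + 2)) =
      house x ^ ((finrank ℚ F : ℝ) * (1 - a)) / house x ^ (finrank ℚ F + 2) := by
    rw [← Real.rpow_natCast, ← Real.rpow_sub hH]
    congr 1
    push_cast
    ring
  have e9 : 0 ≤ absN x ^ (1 - a) := Real.rpow_nonneg hN0.le _
  calc hf x / Gf x * absN x ^ (-a) ≤ (c⁻¹ * hf x) * absN x ^ (-a) :=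
        mul_le_mul_of_nonneg_right e2 (Real.rpow_nonneg hN0.le _)
    _ = c⁻¹ * (absN x ^ 2 / house x ^ (3 * finrank ℚ F)) * absN x ^ (1 - a) := by
        rw [e7]
        unfold hf
        field_simp
    _ ≤ c⁻¹ * ((w₀ x) ^ 2 / house x ^ (finrank ℚ F + 2)) *
          house x ^ ((finrank ℚ F : ℝ) * (1 - a)) := by
        apply mul_le_mul _ e6 e9 (by positivity)
        apply mul_le_mul_of_nonneg_left _ (by positivity)
        rw [div_le_div_iff₀ (by positivity) (by positivity)]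
        exact e5
    _ = c⁻¹ * (w₀ x) ^ 2 * house x ^ (-((finrank ℚ F : ℝ) * a + 2)) := by
        rw [e8]
        ring

end more

theorem goalKEY : A1_KEY := by
  intro F _ _ _ a ha0 ha1
  obtain ⟨hS, -, ⟨c, hc, hcG⟩, hd⟩ :=
    Pool.Agent.Helper51.RS.s_gfb Pool.Agent.Helper24.RS.s_lsm Pool.Agent.Helper69.RS.s_uni F
  have hG : ∀ α : F, α ≠ 0 → 0 < Gf α := fun α hα => lt_of_lt_of_le hc (hcG α hα)
  have hn1 : 1 ≤ finrank ℚ F := finrank_pos
  set n := finrank ℚ F with hn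
  have hc' : 0 < c⁻¹ := by positivity
  refine ⟨2 * 4 ^ (n + 1) + c⁻¹ * 16 + c⁻¹ * 25 * (4 / 3) ^ (n + 2) +
    4 * 2 ^ n * 3 ^ (12 * n) * c⁻¹, by positivity, ?_⟩
  intro A w hw v α hv hα hαv
  have hA : 0 ≤ A := by
    have h := hw.bd 1 le_rfl
    rw [Real.one_rpow, mul_one] at h
    exact (abs_nonneg _).trans h
  set x : F := (α : F) with hx
  set y : F := ((α + v : 𝓞 F) : F) with hy
  have hyx : y = x + (v : F) := by rw [hy, hx]; push_cast; ring
  have hx0 : x ≠ 0 := by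
    rw [hx]; exact RingOfIntegers.coe_ne_zero_iff.2 hα
  have hy0 : y ≠ 0 := by
    rw [hy]; exact RingOfIntegers.coe_ne_zero_iff.2 hαv
  have hv0 : (v : F) ≠ 0 := RingOfIntegers.coe_ne_zero_iff.2 hv
  have hNx : 1 ≤ absN x := one_le_absN hα
  have hNy : 1 ≤ absN y := one_le_absN hαv
  set V : ℝ := house (v : F) with hV
  have hV1 : 1 ≤ V := one_le_house_of_isIntegral v.2 hv0
  have hV0 : 0 < V := by linarith
  have hVn : 1 ≤ V ^ (n + 1) := one_le_pow₀ hV1
  have hV2 : V ^ 2 ≤ V ^ (n + 1) := pow_le_pow_right₀ hV1 (by omega)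
  have hV3 : V ≤ V ^ (n + 1) := by
    calc V = V ^ 1 := (pow_one V).symm
      _ ≤ V ^ (n + 1) := pow_le_pow_right₀ hV1 (by omega)
  set H : ℝ := house x with hH
  have hHpos : 0 < H := house_pos hx0
  have hH1 : 1 ≤ H := one_le_house_of_isIntegral α.2 hx0
  have hna0 : 0 ≤ (n : ℝ) * a := by positivity
  have hnan : (n : ℝ) * a ≤ n := by
    calc (n : ℝ) * a ≤ n * 1 := mul_le_mul_of_nonneg_left ha1 (Nat.cast_nonneg _)
      _ = n := mul_one _
  set D : ℝ := H ^ (-((n : ℝ) * a + 1)) with hDdef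
  have hD : 0 < D := Real.rpow_pos_of_pos hHpos _
  have hD2 : H ^ (-((n : ℝ) * a + 2)) ≤ D :=
    Real.rpow_le_rpow_of_exponent_le hH1 (by linarith)
  have hD3 : H * H ^ (-((n : ℝ) * a + 2)) = D := by
    rw [hDdef]
    nth_rewrite 1 [← Real.rpow_one H]
    rw [← Real.rpow_add hHpos]
    congr 1
    ring
  -- the quotients
  have q0 : ∀ z : F, z ≠ 0 → 0 ≤ hf z / Gf z ∧ hf z / Gf z ≤ 1 := by
    intro z hz
    have a1 := hd z hz
    exact ⟨div_nonneg a1.1.le (hG z hz).le, (div_le_one (hG z hz)).2 a1.2⟩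
  have q1 : ∀ z : F, z ≠ 0 → 1 ≤ absN z → |gw w z| ≤ A * (hf z / Gf z * absN z ^ (-a)) := by
    intro z hz hNz
    unfold gw
    rw [abs_mul, abs_of_nonneg (q0 z hz).1]
    calc hf z / Gf z * |w (absN z)| ≤ hf z / Gf z * (A * absN z ^ (-a)) :=
          mul_le_mul_of_nonneg_left (hw.bd _ hNz) (q0 z hz).1
      _ = A * (hf z / Gf z * absN z ^ (-a)) := by ring
  have q2 : ∀ z : F, z ≠ 0 → 1 ≤ absN z → |gw w z| ≤ A := by
    intro z hz hNz
    refine (q1 z hz hNz).trans ?_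
    have a2 : 0 ≤ absN z ^ (-a) := Real.rpow_nonneg (by linarith) _
    have a3 : absN z ^ (-a) ≤ 1 := Real.rpow_le_one_of_one_le_of_nonpos hNz (by linarith)
    calc A * (hf z / Gf z * absN z ^ (-a)) ≤ A * 1 :=
          mul_le_mul_of_nonneg_left (mul_le_one₀ (q0 z hz).2 a2 a3) hA
      _ = A := mul_one A
  have c1 : 0 ≤ 2 * (4 : ℝ) ^ (n + 1) := by positivity
  have c2 : 0 ≤ c⁻¹ * 16 := by positivity
  have c3 : 0 ≤ c⁻¹ * 25 * (4 / 3) ^ (n + 2) := by positivity
  have c4 : 0 ≤ 4 * 2 ^ n * 3 ^ (12 * n) * c⁻¹ := by positivity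
  -- the final comparison
  have fin : ∀ C' : ℝ, C' ≤ 2 * 4 ^ (n + 1) + c⁻¹ * 16 + c⁻¹ * 25 * (4 / 3) ^ (n + 2) +
      4 * 2 ^ n * 3 ^ (12 * n) * c⁻¹ → |gw w x - gw w y| ≤ C' * A * V ^ (n + 1) * D →
      |gw w x - gw w y| ≤ (2 * 4 ^ (n + 1) + c⁻¹ * 16 + c⁻¹ * 25 * (4 / 3) ^ (n + 2) +
        4 * 2 ^ n * 3 ^ (12 * n) * c⁻¹) * A * V ^ (n + 1) * D := by
    intro C' h1 h2
    refine h2.trans ?_
    gcongr
  by_cases hcase0 : H ≤ 4 * V
  · refine fin (2 * 4 ^ (n + 1)) (by linarith) ?_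
    have b1 : |gw w x - gw w y| ≤ 2 * A :=
      (abs_sub _ _).trans (by linarith [q2 x hx0 hNx, q2 y hy0 hNy])
    have b2 : 1 ≤ (4 * V) ^ (n + 1) * D := by
      have b3 : H ^ ((n : ℝ) * a + 1) ≤ (4 * V) ^ (n + 1) := by
        calc H ^ ((n : ℝ) * a + 1) ≤ H ^ ((n + 1 : ℕ) : ℝ) :=
              Real.rpow_le_rpow_of_exponent_le hH1 (by push_cast; linarith)
          _ = H ^ (n + 1) := Real.rpow_natCast _ _
          _ ≤ (4 * V) ^ (n + 1) := pow_le_pow_left₀ hHpos.le hcase0 _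
      rw [hDdef, Real.rpow_neg hHpos.le, ← div_eq_mul_inv, one_le_div (by positivity)]
      exact b3
    calc |gw w x - gw w y| ≤ 2 * A := b1
      _ = 2 * A * 1 := (mul_one _).symm
      _ ≤ 2 * A * ((4 * V) ^ (n + 1) * D) := mul_le_mul_of_nonneg_left b2 (by linarith)
      _ = 2 * 4 ^ (n + 1) * A * V ^ (n + 1) * D := by
          rw [mul_pow]
          ring
  push Not at hcase0
  obtain ⟨w₀, hw₀⟩ := Finite.exists_min (fun w : InfinitePlace F => w x)
  have hvw : ∀ w : InfinitePlace F, w (v : F) ≤ V := fun w => place_le w _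
  have hyw : ∀ w : InfinitePlace F, w y ≤ w x + V := by
    intro w
    rw [hyx]
    exact (place_add w x (v : F)).trans (by linarith [hvw w])
  have hxw : ∀ w : InfinitePlace F, w x ≤ w y + V := by
    intro w
    have e : x = y + -(v : F) := by rw [hyx]; ring
    have e1 : w x ≤ w y + w (-(v : F)) := by
      conv_lhs => rw [e]
      exact place_add w y _
    have e2 : w (-(v : F)) = w (v : F) := by
      rw [← InfinitePlace.norm_embedding_eq, ← InfinitePlace.norm_embedding_eq, map_neg, norm_neg]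
    rw [e2] at e1
    linarith [hvw w]
  set t : ℝ := w₀ x with ht
  have htpos : 0 < t := InfinitePlace.pos_iff.2 hx0
  have htH : t ≤ H := place_le w₀ x
  have hBx := q_bound hc hcG ha0 ha1 hx0 hNx w₀
  rw [← hn, ← hH, ← ht] at hBx
  by_cases hcase1 : t ≤ 4 * V
  · refine fin (c⁻¹ * 16 + c⁻¹ * 25 * (4 / 3) ^ (n + 2)) (by linarith) ?_
    have hBy := q_bound hc hcG ha0 ha1 hy0 hNy w₀
    rw [← hn] at hBy
    have hH'pos : 0 < house y := house_pos hy0
    have hHH' : 3 / 4 * H ≤ house y := by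
      have : H ≤ house y + V := house_le_of (by positivity) fun w =>
        (hxw w).trans (by linarith [place_le w y])
      linarith
    have d1 : |gw w x| ≤ c⁻¹ * 16 * A * V ^ (n + 1) * D := by
      calc |gw w x| ≤ A * (hf x / Gf x * absN x ^ (-a)) := q1 x hx0 hNx
        _ ≤ A * (c⁻¹ * t ^ 2 * H ^ (-((n : ℝ) * a + 2))) := mul_le_mul_of_nonneg_left hBx hA
        _ ≤ A * (c⁻¹ * (4 * V) ^ 2 * D) := by gcongr
        _ = c⁻¹ * 16 * A * V ^ 2 * D := by ring
        _ ≤ c⁻¹ * 16 * A * V ^ (n + 1) * D := by gcongr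
    have d2 : |gw w y| ≤ c⁻¹ * 25 * (4 / 3) ^ (n + 2) * A * V ^ (n + 1) * D := by
      have e1 : w₀ y ≤ 5 * V := (hyw w₀).trans (by linarith)
      have e2 : house y ^ (-((n : ℝ) * a + 2)) ≤ (4 / 3) ^ (n + 2) * D := by
        calc house y ^ (-((n : ℝ) * a + 2)) ≤ (3 / 4 * H) ^ (-((n : ℝ) * a + 2)) :=
              Real.rpow_le_rpow_of_nonpos (by positivity) hHH' (by linarith)
          _ = (3 / 4 : ℝ) ^ (-((n : ℝ) * a + 2)) * H ^ (-((n : ℝ) * a + 2)) :=
              Real.mul_rpow (by norm_num) hHpos.le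
          _ ≤ (4 / 3) ^ (n + 2) * D := by
              apply mul_le_mul _ hD2 (Real.rpow_nonneg hHpos.le _) (by positivity)
              rw [Real.rpow_neg (by norm_num), ← Real.inv_rpow (by norm_num)]
              calc ((3 / 4 : ℝ)⁻¹) ^ ((n : ℝ) * a + 2) = (4 / 3 : ℝ) ^ ((n : ℝ) * a + 2) := by
                    norm_num
                _ ≤ (4 / 3 : ℝ) ^ ((n + 2 : ℕ) : ℝ) :=
                    Real.rpow_le_rpow_of_exponent_le (by norm_num) (by push_cast; linarith)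
                _ = (4 / 3) ^ (n + 2) := Real.rpow_natCast _ _
      calc |gw w y| ≤ A * (hf y / Gf y * absN y ^ (-a)) := q1 y hy0 hNy
        _ ≤ A * (c⁻¹ * (w₀ y) ^ 2 * house y ^ (-((n : ℝ) * a + 2))) :=
            mul_le_mul_of_nonneg_left hBy hA
        _ ≤ A * (c⁻¹ * (5 * V) ^ 2 * ((4 / 3) ^ (n + 2) * D)) := by
            apply mul_le_mul_of_nonneg_left _ hA
            apply mul_le_mul _ e2 (Real.rpow_nonneg hH'pos.le _) (by positivity)
            apply mul_le_mul_of_nonneg_left _ hc'.le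
            exact pow_le_pow_left₀ (apply_nonneg _ _) e1 2
        _ = c⁻¹ * 25 * (4 / 3) ^ (n + 2) * A * V ^ 2 * D := by ring
        _ ≤ c⁻¹ * 25 * (4 / 3) ^ (n + 2) * A * V ^ (n + 1) * D := by gcongr
    calc |gw w x - gw w y| ≤ |gw w x| + |gw w y| := abs_sub _ _
      _ ≤ c⁻¹ * 16 * A * V ^ (n + 1) * D +
          c⁻¹ * 25 * (4 / 3) ^ (n + 2) * A * V ^ (n + 1) * D := add_le_add d1 d2
      _ = _ := by ring
  push Not at hcase1
  -- second case: all places are large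
  refine fin (4 * 2 ^ n * 3 ^ (12 * n) * c⁻¹) (by linarith) ?_
  set η : ℝ := V / t with hη
  have hη0 : 0 ≤ η := by positivity
  have hη1 : η ≤ 1 / 4 := by
    rw [hη, div_le_iff₀ htpos]; linarith
  have hηt : ∀ w : InfinitePlace F, V ≤ η * w x := by
    intro w
    have := hw₀ w
    calc V = η * t := by rw [hη]; field_simp
      _ ≤ η * w x := mul_le_mul_of_nonneg_left this hη0
  set ρ : ℝ := 1 + 2 * η with hρ
  have hρ1 : 1 ≤ ρ := by linarith
  have hρ2 : ρ ≤ 2 := by linarith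
  have r1 : ∀ w : InfinitePlace F, w y ≤ ρ * w x := by
    intro w
    have a1 := hyw w
    have a2 := hηt w
    have a3 : 0 ≤ w x := apply_nonneg _ _
    rw [hρ]
    nlinarith
  have r2 : ∀ w : InfinitePlace F, w x ≤ ρ * w y := by
    intro w
    have a1 := hxw w
    have a2 := hηt w
    have a3 : 0 ≤ w x := apply_nonneg _ _
    have a4 : (1 - η) * w x ≤ w y := by linarith
    have a5 : 1 ≤ (1 + 2 * η) * (1 - η) := by nlinarith
    calc w x = 1 * w x := (one_mul _).symm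
      _ ≤ ((1 + 2 * η) * (1 - η)) * w x := mul_le_mul_of_nonneg_right a5 a3
      _ = ρ * ((1 - η) * w x) := by rw [hρ]; ring
      _ ≤ ρ * w y := mul_le_mul_of_nonneg_left a4 (by linarith)
  have k1 := q_ratio hS hG hx0 hy0 hρ1 r1 r2
  have k2 := q_ratio hS hG hy0 hx0 hρ1 r2 r1
  have n1 := absN_ratio (by linarith) r1
  have n2 := absN_ratio (by linarith) r2
  rw [← hn] at k1 k2 n1 n2
  obtain ⟨qx, hqx⟩ : ∃ q, q = hf x / Gf x := ⟨_, rfl⟩
  obtain ⟨qy, hqy⟩ : ∃ q, q = hf y / Gf y := ⟨_, rfl⟩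
  have qx0 : 0 ≤ qx := by rw [hqx]; exact (q0 x hx0).1
  have qy0 : 0 ≤ qy := by rw [hqy]; exact (q0 y hy0).1
  rw [← hqx, ← hqy] at k1 k2
  obtain ⟨R, hR⟩ : ∃ R, R = ρ ^ (12 * n) := ⟨_, rfl⟩
  obtain ⟨r, hr⟩ : ∃ r, r = ρ ^ n := ⟨_, rfl⟩
  rw [← hR] at k1 k2
  rw [← hr] at n1 n2
  have hR1 : 1 ≤ R := by rw [hR]; exact one_le_pow₀ hρ1
  have hr1 : 1 ≤ r := by rw [hr]; exact one_le_pow₀ hρ1
  have hrR : r ≤ R := by rw [hr, hR]; exact pow_le_pow_right₀ hρ1 (by omega)
  have hr2 : r ≤ 2 ^ n := by rw [hr]; exact pow_le_pow_left₀ (by linarith) hρ2 _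
  have hRb : R - 1 ≤ 3 ^ (12 * n) * (2 * η) := by
    have := pow_bound (2 * η) (by positivity) (by linarith) (12 * n)
    rw [hR, hρ]
    linarith
  -- the difference of the quotients
  have m1 : |qx - qy| ≤ (R - 1) * qx := by
    rw [abs_le]
    constructor
    · linarith
    · rcases le_total (2 - R) 0 with a3 | a3
      · nlinarith
      · have a4 : (2 - R) * R ≤ 1 := by nlinarith [sq_nonneg (R - 1)]
        have a5 : (2 - R) * qx ≤ (2 - R) * (R * qy) := mul_le_mul_of_nonneg_left k2 a3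
        have a6 : (2 - R) * (R * qy) = (2 - R) * R * qy := by ring
        have a7 : (2 - R) * R * qy ≤ 1 * qy := mul_le_mul_of_nonneg_right a4 qy0
        linarith
  -- the values of the weight
  obtain ⟨X, hX⟩ : ∃ X, X = absN x ^ (-a) := ⟨_, rfl⟩
  have hX0 : 0 ≤ X := by rw [hX]; exact Real.rpow_nonneg (by linarith) _
  have hNx0 : 0 < absN x := by linarith
  have hNy0 : 0 < absN y := by linarith
  have m2 : absN y ^ (-a) ≤ r * X := by
    have b1 : (absN x / r) ^ (-a) = r ^ a * X := by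
      rw [Real.div_rpow hNx0.le (by linarith), hX, Real.rpow_neg (by linarith : 0 ≤ r),
        div_inv_eq_mul, mul_comm]
    have b2 : absN y ^ (-a) ≤ (absN x / r) ^ (-a) := by
      refine Real.rpow_le_rpow_of_nonpos (by positivity) ?_ (by linarith)
      rw [div_le_iff₀ (by linarith), mul_comm]
      exact n2
    have b3 : r ^ a ≤ r := by
      calc r ^ a ≤ r ^ (1 : ℝ) := Real.rpow_le_rpow_of_exponent_le hr1 ha1
        _ = r := Real.rpow_one r
    calc absN y ^ (-a) ≤ r ^ a * X := b2.trans b1.le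
      _ ≤ r * X := mul_le_mul_of_nonneg_right b3 hX0
  have m3 : |w (absN y)| ≤ A * (r * X) :=
    (hw.bd _ hNy).trans (mul_le_mul_of_nonneg_left m2 hA)
  have m4 : |w (absN x) - w (absN y)| ≤ A * (r * X) * (r - 1) := by
    rcases le_total (absN x) (absN y) with h | h
    · have b1 := hw.lip _ _ hNx h
      rw [← hX] at b1
      have b2 : (absN y - absN x) / absN x ≤ r - 1 := by
        rw [div_le_iff₀ hNx0]
        linarith
      calc |w (absN x) - w (absN y)| ≤ A * X * ((absN y - absN x) / absN x) := b1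
        _ ≤ A * X * (r - 1) := mul_le_mul_of_nonneg_left b2 (by positivity)
        _ ≤ A * (r * X) * (r - 1) := by
            apply mul_le_mul_of_nonneg_right _ (by linarith)
            apply mul_le_mul_of_nonneg_left _ hA
            nlinarith
    · have b1 := hw.lip _ _ hNy h
      have b2 : (absN x - absN y) / absN y ≤ r - 1 := by
        rw [div_le_iff₀ hNy0]
        linarith
      rw [abs_sub_comm]
      calc |w (absN y) - w (absN x)| ≤ A * absN y ^ (-a) * ((absN x - absN y) / absN y) := b1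
        _ ≤ A * absN y ^ (-a) * (r - 1) := by
            apply mul_le_mul_of_nonneg_left b2
            exact mul_nonneg hA (Real.rpow_nonneg hNy0.le _)
        _ ≤ A * (r * X) * (r - 1) := by
            apply mul_le_mul_of_nonneg_right _ (by linarith)
            exact mul_le_mul_of_nonneg_left m2 hA
  have m5 : gw w x - gw w y = qx * (w (absN x) - w (absN y)) + (qx - qy) * w (absN y) := by
    unfold gw
    rw [hqx, hqy]
    ring
  have m6 : |gw w x - gw w y| ≤ qx * (A * (r * X) * (r - 1)) + (R - 1) * qx * (A * (r * X)) := by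
    rw [m5]
    refine (abs_add_le _ _).trans (add_le_add ?_ ?_)
    · rw [abs_mul, abs_of_nonneg qx0]
      exact mul_le_mul_of_nonneg_left m4 qx0
    · rw [abs_mul]
      exact mul_le_mul m1 m3 (abs_nonneg _) (mul_nonneg (by linarith) qx0)
  have m7 : qx * (A * (r * X) * (r - 1)) + (R - 1) * qx * (A * (r * X)) ≤
      A * (2 * 2 ^ n * (3 ^ (12 * n) * (2 * η))) * (qx * X) := by
    have b0 : 0 ≤ qx * X := mul_nonneg qx0 hX0
    have b1 : qx * (A * (r * X) * (r - 1)) + (R - 1) * qx * (A * (r * X)) =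
        A * (r * ((r - 1) + (R - 1))) * (qx * X) := by ring
    rw [b1]
    apply mul_le_mul_of_nonneg_right _ b0
    apply mul_le_mul_of_nonneg_left _ hA
    calc r * ((r - 1) + (R - 1)) ≤ 2 ^ n * (2 * (3 ^ (12 * n) * (2 * η))) := by
          apply mul_le_mul hr2 (by linarith) (by linarith) (by positivity)
      _ = 2 * 2 ^ n * (3 ^ (12 * n) * (2 * η)) := by ring
  have m8 : qx * X ≤ c⁻¹ * t ^ 2 * H ^ (-((n : ℝ) * a + 2)) := by
    rw [hqx, hX]
    exact hBx
  have m9 : η * (t ^ 2 * H ^ (-((n : ℝ) * a + 2))) ≤ V * D := by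
    have b1 : η * t = V := by rw [hη]; field_simp
    calc η * (t ^ 2 * H ^ (-((n : ℝ) * a + 2))) = (η * t) * (t * H ^ (-((n : ℝ) * a + 2))) := by
          ring
      _ = V * (t * H ^ (-((n : ℝ) * a + 2))) := by rw [b1]
      _ ≤ V * (H * H ^ (-((n : ℝ) * a + 2))) := by
          apply mul_le_mul_of_nonneg_left _ hV0.le
          exact mul_le_mul_of_nonneg_right htH (Real.rpow_nonneg hHpos.le _)
      _ = V * D := by rw [hD3]
  calc |gw w x - gw w y| ≤ A * (2 * 2 ^ n * (3 ^ (12 * n) * (2 * η))) * (qx * X) := m6.trans m7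
    _ ≤ A * (2 * 2 ^ n * (3 ^ (12 * n) * (2 * η))) *
          (c⁻¹ * t ^ 2 * H ^ (-((n : ℝ) * a + 2))) :=
        mul_le_mul_of_nonneg_left m8 (by positivity)
    _ = 4 * 2 ^ n * 3 ^ (12 * n) * c⁻¹ * A * (η * (t ^ 2 * H ^ (-((n : ℝ) * a + 2)))) := by ring
    _ ≤ 4 * 2 ^ n * 3 ^ (12 * n) * c⁻¹ * A * (V * D) :=
        mul_le_mul_of_nonneg_left m9 (by positivity)
    _ ≤ 4 * 2 ^ n * 3 ^ (12 * n) * c⁻¹ * A * (V ^ (n + 1) * D) := by gcongr
    _ = 4 * 2 ^ n * 3 ^ (12 * n) * c⁻¹ * A * V ^ (n + 1) * D := by ring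

end Pool.Agent.Helper32.PP
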